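import Pool.Agent.L7h49.PM.Def

set_option autoImplicit false

/-!
# Project PM, part REG
-/

namespace Pool.Agent.L7h34.PM

open Pool.Agent.L7h49.PM

theorem nsq (v : E2) : ‖v‖ ^ 2 = (v 0) ^ 2 + (v 1) ^ 2 := by
  rw [EuclideanSpace.norm_sq_eq]
  simp [Fin.sum_univ_two]

theorem abs0 (v : E2) : |v 0| ≤ ‖v‖ := by
  apply abs_le_of_sq_le_sq _ (norm_nonneg v)
  rw [nsq]
  nlinarith [sq_nonneg (v 1)]

theorem abs1 (v : E2) : |v 1| ≤ ‖v‖ := by
  apply abs_le_of_sq_le_sq _ (norm_nonneg v)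
  rw [nsq]
  nlinarith [sq_nonneg (v 0)]

theorem cs (v : E2) {p q : ℝ} (h : p ^ 2 + q ^ 2 = 1) : v 0 * p + v 1 * q ≤ ‖v‖ := by
  apply le_trans (le_abs_self _)
  apply abs_le_of_sq_le_sq _ (norm_nonneg v)
  rw [nsq]
  have h1 : (v 0 ^ 2 + v 1 ^ 2) * (p ^ 2 + q ^ 2) = (v 0 * p + v 1 * q) ^ 2
      + (v 0 * q - v 1 * p) ^ 2 := by ring
  rw [h, mul_one] at h1
  nlinarith [sq_nonneg (v 0 * q - v 1 * p)]

/-- one half of the estimate -/
theorem half {p q C x ρ z : ℝ} (hp : 9 / 10 ≤ p) (hp1 : p ≤ 1) (hq : |q| ≤ 1 / 3) (hC : 1 ≤ C)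
    (hρ : 0 ≤ ρ) (hz : |z| ≤ ρ) (h : ρ - 3 * C ≤ x * p + z * q) :
    3 / 5 * ρ - 6 * C ≤ x := by
  have h1 : z * q ≤ ρ / 3 := by
    calc z * q ≤ |z * q| := le_abs_self _
      _ = |z| * |q| := abs_mul _ _
      _ ≤ ρ * (1 / 3) := mul_le_mul hz hq (abs_nonneg _) hρ
      _ = ρ / 3 := by ring
  have h2 : 2 / 3 * ρ - 3 * C ≤ x * p := by linarith
  by_contra hx
  push Not at hx
  have h3 : x * p < (3 / 5 * ρ - 6 * C) * p := mul_lt_mul_of_pos_right hx (by linarith)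
  rcases le_or_gt 0 (3 / 5 * ρ - 6 * C) with h4 | h4
  · have h5 : (3 / 5 * ρ - 6 * C) * p ≤ (3 / 5 * ρ - 6 * C) * 1 :=
      mul_le_mul_of_nonneg_left hp1 h4
    linarith
  · have h5 : (3 / 5 * ρ - 6 * C) * p ≤ (3 / 5 * ρ - 6 * C) * (9 / 10) :=
      mul_le_mul_of_nonpos_left hp h4.le
    linarith

theorem s_REG : S_REG := by
  intro L C y t a c w hC hL hy ht ha hc hw
  have a0 := abs_le.1 ((abs0 _).trans ha)
  have a1 := abs_le.1 ((abs1 _).trans ha)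
  have c0 := abs_le.1 ((abs0 _).trans hc)
  have c1 := abs_le.1 ((abs1 _).trans hc)
  simp only [pt, PiLp.sub_apply, Matrix.cons_val_zero, Matrix.cons_val_one]
    at a0 a1 c0 c1
  obtain ⟨y1, y2⟩ := abs_le.1 hy
  obtain ⟨t1, t2⟩ := abs_le.1 ht
  obtain ⟨a01, a02⟩ := a0
  obtain ⟨a11, a12⟩ := a1
  obtain ⟨c01, c02⟩ := c0
  obtain ⟨c11, c12⟩ := c1
  -- the direction
  set D : ℝ := ‖a - c‖ with hD
  have hD2 : D ^ 2 = (c 0 - a 0) ^ 2 + (c 1 - a 1) ^ 2 := by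
    rw [hD, nsq]
    simp only [PiLp.sub_apply]
    ring
  have hdx : L - 2 * C ≤ c 0 - a 0 := by linarith
  have hDpos : 0 < D := by
    rcases (norm_nonneg (a - c)).lt_or_eq with h | h
    · exact h
    · exfalso
      rw [← hD] at h
      rw [← h] at hD2
      nlinarith [sq_nonneg (c 1 - a 1)]
  set p : ℝ := (c 0 - a 0) / D with hp
  set q : ℝ := (c 1 - a 1) / D with hq
  have hpq : p ^ 2 + q ^ 2 = 1 := by
    rw [hp, hq, div_pow, div_pow, ← add_div, ← hD2]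
    exact div_self (pow_ne_zero _ hDpos.ne')
  have hpD : p * D = c 0 - a 0 := div_mul_cancel₀ _ hDpos.ne'
  have hqD : q * D = c 1 - a 1 := div_mul_cancel₀ _ hDpos.ne'
  have hp0 : 0 < p := div_pos (by linarith) hDpos
  have hqp : |q| ≤ p / 3 := by
    have h1 : |c 1 - a 1| ≤ (c 0 - a 0) / 3 := by
      rw [abs_le]
      constructor <;> linarith
    rw [hq, hp, abs_div, abs_of_pos hDpos, div_right_comm]
    exact div_le_div_of_nonneg_right h1 hDpos.le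
  have hq2 : q ^ 2 ≤ p ^ 2 / 9 := by
    have := sq_le_sq' (by linarith [abs_nonneg q, neg_nonpos.2 (abs_nonneg q)] : -(p / 3) ≤ |q|) hqp
    rw [sq_abs] at this
    linarith [this, (by ring : (p / 3) ^ 2 = p ^ 2 / 9)]
  have hp9 : 9 / 10 ≤ p := by
    by_contra h
    push Not at h
    nlinarith
  have hp1 : p ≤ 1 := by nlinarith [sq_nonneg q]
  have hq3 : |q| ≤ 1 / 3 := by linarith
  have e1 := cs (c - w) hpq
  have e2 := cs (w - a) hpq
  have r0 := abs0 (w - a)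
  have r1 := abs1 (w - a)
  have s0 := abs0 (w - c)
  have s1 := abs1 (w - c)
  rw [norm_sub_rev c w] at e1
  simp only [PiLp.sub_apply] at e1 e2 r0 r1 s0 s1
  have e3 : (c 0 - w 0) * p + (c 1 - w 1) * q + ((w 0 - a 0) * p + (w 1 - a 1) * q) = D := by
    have : (c 0 - w 0) * p + (c 1 - w 1) * q + ((w 0 - a 0) * p + (w 1 - a 1) * q)
        = (c 0 - a 0) * p + (c 1 - a 1) * q := by ring
    rw [this, ← hpD, ← hqD]
    calc p * D * p + q * D * q = D * (p ^ 2 + q ^ 2) := by ring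
      _ = D := by rw [hpq, mul_one]
  have k1 : 3 / 5 * ‖w - a‖ - 6 * C ≤ w 0 - a 0 :=
    half hp9 hp1 hq3 hC (norm_nonneg _) r1 (by linarith)
  have k2 : 3 / 5 * ‖w - c‖ - 6 * C ≤ c 0 - w 0 :=
    half hp9 hp1 hq3 hC (norm_nonneg _) (z := c 1 - w 1) (by rw [abs_sub_comm]; exact s1)
      (by linarith)
  have hDle : D ≤ 5 / 4 * L + 4 * C := by
    have h1 : (c 0 - a 0) ^ 2 ≤ (L + 2 * C) ^ 2 := by
      apply sq_le_sq' <;> linarith
    have h2 : (c 1 - a 1) ^ 2 ≤ (L / 4 + 2 * C) ^ 2 := by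
      apply sq_le_sq' <;> linarith
    have h3 : 0 ≤ (L + 2 * C) * (L / 4 + 2 * C) :=
      mul_nonneg (by linarith) (by linarith)
    have h4 : D ^ 2 ≤ (5 / 4 * L + 4 * C) ^ 2 := by
      rw [hD2]
      calc (c 0 - a 0) ^ 2 + (c 1 - a 1) ^ 2 ≤ (L + 2 * C) ^ 2 + (L / 4 + 2 * C) ^ 2 :=
            add_le_add h1 h2
        _ ≤ (L + 2 * C) ^ 2 + (L / 4 + 2 * C) ^ 2 + 2 * ((L + 2 * C) * (L / 4 + 2 * C)) := by
            linarith
        _ = (5 / 4 * L + 4 * C) ^ 2 := by ring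
    exact (le_abs_self _).trans (abs_le_of_sq_le_sq h4 (by linarith))
  have ra := norm_nonneg (w - a)
  have rc := norm_nonneg (w - c)
  obtain ⟨r01, r02⟩ := abs_le.1 r0
  obtain ⟨r11, r12⟩ := abs_le.1 r1
  obtain ⟨s01, s02⟩ := abs_le.1 s0
  obtain ⟨s11, s12⟩ := abs_le.1 s1
  unfold Reg bx
  refine ⟨by linarith, by linarith, ?_, ?_, fun h => ⟨by linarith, by linarith, by linarith,
    by linarith⟩, fun h => ⟨by linarith, by linarith⟩, fun h => ⟨by linarith, by linarith,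
    by linarith, by linarith⟩, fun h => ⟨by linarith, by linarith⟩⟩
  · rcases le_total ‖w - a‖ ‖w - c‖ with h | h <;> linarith
  · rcases le_total ‖w - a‖ ‖w - c‖ with h | h <;> linarith

end Pool.Agent.L7h34.PM
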